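import Pool.Agent.MP_c69980_ag.H43.Spec10

/-!
Finiteness of the integral closure of an affine domain in characteristic zero.
-/

set_option autoImplicit false

namespace Pool.Agent.MP_c69980_ag.H43

open scoped nonZeroDivisors in
lemma finI_gen (A R E L : Type) [CommRing A] [IsDomain A] [IsIntegrallyClosed A] [IsNoetherianRing A]
    [CharZero A] [CommRing R] [IsDomain R] [Algebra A R] [FaithfulSMul A R] [Module.Finite A R]
    [Field E] [Algebra R E] [IsFractionRing R E] [Field L] [Algebra E L] [Algebra R L]
    [IsScalarTower R E L] [FiniteDimensional E L] : Module.Finite R (integralClosure R L) := by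
  let _ : Algebra A E := ((algebraMap R E).comp (algebraMap A R)).toAlgebra
  let _ : Algebra A L := ((algebraMap R L).comp (algebraMap A R)).toAlgebra
  have : IsScalarTower A R E := .of_algebraMap_eq fun _ => rfl
  have : IsScalarTower A R L := .of_algebraMap_eq fun _ => rfl
  have : IsScalarTower A E L := .of_algebraMap_eq fun a => IsScalarTower.algebraMap_apply R E L _
  have : FaithfulSMul A E := (faithfulSMul_iff_algebraMap_injective A E).2
    ((IsFractionRing.injective R E).comp (FaithfulSMul.algebraMap_injective A R))
  let _ : Algebra (FractionRing A) E := FractionRing.liftAlgebra A E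
  let _ : Algebra (FractionRing A) L :=
    ((algebraMap E L).comp (algebraMap (FractionRing A) E)).toAlgebra
  have : IsScalarTower (FractionRing A) E L := .of_algebraMap_eq fun _ => rfl
  have : IsScalarTower A (FractionRing A) L := .of_algebraMap_eq fun a => by
    rw [IsScalarTower.algebraMap_apply (FractionRing A) E L, ← IsScalarTower.algebraMap_apply A _ E,
      ← IsScalarTower.algebraMap_apply A E L]
  have : FiniteDimensional (FractionRing A) E := .of_isLocalization A R A⁰
  have : FiniteDimensional (FractionRing A) L := .trans _ E L
  have : IsIntegralClosure (integralClosure R L) A L := ⟨Subtype.val_injective, fun {x} =>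
    ⟨fun h => ⟨⟨x, h.tower_top⟩, rfl⟩, fun ⟨y, e⟩ => e ▸ isIntegral_trans (A := R) _ y.2⟩⟩
  have := IsIntegralClosure.finite A (FractionRing A) L (integralClosure R L)
  exact .of_restrictScalars_finite A _ _

open scoped IntermediateField.algebraAdjoinAdjoin in
theorem sFinI : SFinI := by
  intro F L _ _ _ _ ι _ x _
  have : Algebra.FiniteType F (Algebra.adjoin F (Set.range x)) :=
    .adjoin_of_finite (Set.finite_range x)
  obtain ⟨s, g, g1, g2⟩ := exists_finite_inj_algHom_of_fg F (Algebra.adjoin F (Set.range x))
  let _ := g.toRingHom.toAlgebra
  have : Module.Finite (MvPolynomial (Fin s) F) (Algebra.adjoin F (Set.range x)) := g2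
  have := (faithfulSMul_iff_algebraMap_injective (MvPolynomial (Fin s) F) _).2 g1
  exact finI_gen (MvPolynomial (Fin s) F) _ (IntermediateField.adjoin F (Set.range x)) L

end Pool.Agent.MP_c69980_ag.H43
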